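import Mathlib

set_option autoImplicit false

namespace Pool.Agent.H.MP_853269_co

open MvPolynomial Finset

variable {p : ℕ} [Fact p.Prime]

abbrev R (p : ℕ) := MvPolynomial (Fin 3) (ZMod p)

noncomputable def L (d : Fin 3 → ZMod p) : R p := ∑ i, C (d i) * X i

theorem L_hom (d : Fin 3 → ZMod p) : (L d).IsHomogeneous 1 :=
  IsHomogeneous.sum _ _ _ fun i _ => (isHomogeneous_X _ i).C_mul _

theorem L_pow (d : Fin 3 → ZMod p) : L d ^ p = ∑ i, X i ^ p * C (d i) := by
  rw [L, sum_pow_char]
  exact sum_congr rfl fun i _ => by rw [mul_pow, ← C_pow, ZMod.pow_card, mul_comm]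

theorem pderiv_L (d : Fin 3 → ZMod p) (a : Fin 3) : pderiv a (L d) = C (d a) := by
  simp [L, pderiv_X, Pi.single_apply]

theorem L_ne {d : Fin 3 → ZMod p} (h : d ≠ 0) : L d ≠ 0 := fun e => h (funext fun a => by
  have := pderiv_L d a
  rw [e, map_zero] at this
  exact C_eq_zero.1 this.symm)

theorem deg_aeval (f : Fin 3 → R p) (hf : ∀ i, (f i).totalDegree ≤ 1) (q : R p) :
    (aeval f q).totalDegree ≤ q.totalDegree := by
  rw [aeval_def, eval₂_eq']
  refine totalDegree_finsetSum_le fun s hs => (totalDegree_mul _ _).trans ?_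
  rw [algebraMap_eq, totalDegree_C, zero_add]
  refine (totalDegree_finsetProd _ _).trans (le_trans ?_ (le_totalDegree hs))
  rw [Finsupp.sum_fintype _ _ fun _ => rfl]
  exact sum_le_sum fun i _ => (totalDegree_pow _ _).trans
    ((Nat.mul_le_mul_left _ (hf i)).trans_eq (mul_one _))

noncomputable def pr (d : Fin 3 → ZMod p) (k : Fin 3) : R p →ₐ[ZMod p] R p :=
  aeval fun i => X i - if i = k then C (d k)⁻¹ * L d else 0

theorem pr_L (d e : Fin 3 → ZMod p) (k : Fin 3) :
    pr d k (L e) = L (e - (e k * (d k)⁻¹) • d) := by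
  have : L (e - (e k * (d k)⁻¹) • d) = L e - C (e k) * (C (d k)⁻¹ * L d) := by
    simp only [L, Pi.sub_apply, Pi.smul_apply, smul_eq_mul, map_sub, map_mul, sub_mul,
      sum_sub_distrib, mul_sum, mul_assoc]
  rw [this]
  simp [L, pr, mul_sub, sum_sub_distrib]

theorem dvd_iff {d : Fin 3 → ZMod p} {k : Fin 3} (h : d k ≠ 0) (f : R p) :
    L d ∣ f ↔ pr d k f = 0 := by
  have a : L d ∣ f - pr d k f := by
    induction f using MvPolynomial.induction_on with
    | C a => simp [pr]
    | add f g hf hg => simpa [add_sub_add_comm] using dvd_add hf hg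
    | mul_X f i hf =>
      have : L d ∣ X i - pr d k (X i) := by
        simp only [pr, aeval_X, sub_sub_cancel]
        split_ifs <;> simp
      have e : f * X i - pr d k (f * X i) =
        (f - pr d k f) * X i + pr d k f * (X i - pr d k (X i)) := by rw [map_mul]; ring
      exact e ▸ dvd_add (hf.mul_right _) (this.mul_left _)
  refine ⟨?_, fun e => by simpa [e] using a⟩
  rintro ⟨g, rfl⟩
  rw [map_mul, pr_L, mul_inv_cancel₀ h, one_smul, sub_self]
  simp [L]

theorem L_prime {d : Fin 3 → ZMod p} (h : d ≠ 0) : Prime (L d) := by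
  obtain ⟨k, hk⟩ := Function.ne_iff.1 h
  refine ⟨L_ne h, fun u => ?_, fun a b => by simp [dvd_iff hk]⟩
  simpa using (dvd_iff hk 1).1 u.dvd

theorem L_rel {d e : Fin 3 → ZMod p} (h : d ≠ 0) (he : ∀ c : ZMod p, e ≠ c • d) :
    IsRelPrime (L d) (L e) := by
  obtain ⟨k, hk⟩ := Function.ne_iff.1 h
  rw [(L_prime h).irreducible.isRelPrime_iff_not_dvd, dvd_iff hk, pr_L]
  exact L_ne (sub_ne_zero.2 (he _))

theorem syz (q : Fin 3 → R p) (hq : ∀ i, (q i).totalDegree < p) (h : ∑ i, X i ^ p * q i = 0)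
    (i : Fin 3) : q i = 0 := by
  ext s
  have := congrArg (coeff (Finsupp.single i p + s)) h
  by_contra n
  have hs : s.sum (fun _ e => e) < p := (le_totalDegree (mem_support_iff.2 n)).trans_lt (hq i)
  rw [coeff_sum, sum_eq_single i _ (by simp), X_pow_eq_monomial, coeff_monomial_mul, one_mul]
    at this
  · exact n this
  · intro j _ hj
    rw [X_pow_eq_monomial, coeff_monomial_mul', if_neg]
    intro g
    have := g j
    rw [Finsupp.sum_fintype _ _ fun _ => rfl] at hs
    have := single_le_sum (f := s) (fun _ _ => Nat.zero_le _) (mem_univ j)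
    simp [hj] at *
    omega

theorem iter {d : Fin 3 → ZMod p} (h : d ≠ 0) (φ : Fin 3 → R p)
    (hφ : ∀ i, (φ i).totalDegree < p) : ∃ l : R p, (∃ k c, l = C c * φ k) ∧
      ∀ n ≤ p, L d ^ n ∣ ∑ i, X i ^ p * φ i → ∀ i, L d ^ n ∣ φ i - C (d i) * l := by
  obtain ⟨k, hk⟩ := Function.ne_iff.1 h
  refine ⟨C (d k)⁻¹ * φ k, ⟨_, _, rfl⟩, fun n => ?_⟩
  induction n with
  | zero => simp
  | succ n ih =>
    intro hn hd
    choose ψ hψ using ih (by omega) ((pow_dvd_pow _ n.le_succ).trans hd)
    have l0 := pow_ne_zero n (L_ne h)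
    have k0 : ψ k = 0 := by
      have := hψ k
      rw [← mul_assoc, ← C_mul, mul_inv_cancel₀ hk, C_1, one_mul, sub_self] at this
      exact (mul_eq_zero.1 this.symm).resolve_left l0
    have e : ∑ i, X i ^ p * φ i =
        L d ^ p * (C (d k)⁻¹ * φ k) + L d ^ n * ∑ i, X i ^ p * ψ i := by
      rw [L_pow, sum_mul, mul_sum, ← sum_add_distrib]
      exact sum_congr rfl fun i _ => by linear_combination X i ^ p * hψ i
    rw [e, dvd_add_right ((pow_dvd_pow _ hn).mul_right _), pow_succ, mul_dvd_mul_iff_left l0,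
      dvd_iff hk, map_sum] at hd
    intro i
    rw [hψ, pow_succ, mul_dvd_mul_iff_left l0, dvd_iff hk]
    refine syz (fun i => pr d k (ψ i)) (fun j => (deg_aeval _ (fun a => ?_) _).trans_lt ?_) ?_ i
    · refine (totalDegree_sub _ _).trans (max_le (by simp) ?_)
      split_ifs
      · exact ((L_hom d).C_mul _).totalDegree_le
      · simp
    · by_cases z : ψ j = 0
      · simpa [z] using (Fact.out : p.Prime).pos
      refine (totalDegree_le_of_dvd_of_isDomain (Dvd.intro_left _ (hψ j).symm)
        (hψ j ▸ mul_ne_zero l0 z)).trans_lt ((totalDegree_sub _ _).trans_lt (max_lt (hφ j) ?_))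
      rw [← mul_assoc, ← C_mul]
      exact ((totalDegree_mul _ _).trans (by rw [totalDegree_C, zero_add])).trans_lt (hφ k)
    · refine Eq.trans (sum_congr rfl fun j _ => ?_) hd
      by_cases z : j = k
      · simp [z, k0]
      · simp [pr, z]

def D3 {A : Type} [CommRing A] (x y z : Fin 3 → A) : A :=
  x 0 * (y 1 * z 2 - y 2 * z 1) - x 1 * (y 0 * z 2 - y 2 * z 0) + x 2 * (y 0 * z 1 - y 1 * z 0)

theorem jac (d : Fin 3 → ZMod p) (h ψ : Fin 3 → R p) (l : R p) (n : ℕ) (a b : Fin 3)
    (e : ∀ i, h i - C (d i) * l = L d ^ (n + 1) * ψ i) : ∃ T,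
    D3 h (fun i => pderiv a (h i)) (fun i => pderiv b (h i)) = L d ^ (2 * n + 1) *
      (l * ((n : R p) + 1) * (C (d a) * D3 (fun i => C (d i)) ψ (fun i => pderiv b (ψ i)) +
        C (d b) * D3 (fun i => C (d i)) (fun i => pderiv a (ψ i)) ψ) + L d * T) := by
  obtain rfl : h = fun i => C (d i) * l + L d ^ (n + 1) * ψ i :=
    funext fun i => by rw [← e]; ring
  refine ⟨l * D3 (fun i => C (d i)) (fun i => pderiv a (ψ i)) (fun i => pderiv b (ψ i)) +
    pderiv a l * D3 ψ (fun i => C (d i)) (fun i => pderiv b (ψ i)) +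
    pderiv b l * D3 ψ (fun i => pderiv a (ψ i)) (fun i => C (d i)) +
    L d ^ n * L d * D3 ψ (fun i => pderiv a (ψ i)) (fun i => pderiv b (ψ i)), ?_⟩
  simp only [D3, map_add, Derivation.leibniz, Derivation.leibniz_pow, pderiv_L,
    smul_eq_mul, nsmul_eq_mul, add_tsub_cancel_right, pderiv_C]
  push_cast
  ring

theorem top (f : R p) (m N : ℕ) (hN : N = p + m) (hf : f.totalDegree ≤ N)
    (h0 : ∀ x, eval x f = 0) : ∃ h : Fin 3 → R p, (∀ i, (h i).IsHomogeneous m) ∧
      homogeneousComponent N f = ∑ i, X i ^ p * h i := by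
  have p1 := (Fact.out : p.Prime).one_lt
  obtain ⟨H, h1, h2⟩ := combinatorial_nullstellensatz_exists_linearCombination
    (fun _ => univ) (fun _ => univ_nonempty) f fun x _ => h0 x
  have P : ∀ i : Fin 3, ∏ s : ZMod p, (X i - C s : R p) = X i ^ p - X i := fun i => by
    have r := FiniteField.roots_X_pow_card_sub_X (ZMod p)
    rw [ZMod.card] at r
    have a := Polynomial.prod_multiset_X_sub_C_of_monic_of_roots_card_eq
      (Polynomial.monic_X_pow_sub (p := Polynomial.X) (R := ZMod p) (n := p) (by simpa using p1))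
      (by rw [r, FiniteField.X_pow_card_sub_X_natDegree_eq _ p1]; exact ZMod.card p)
    rw [r] at a
    simpa [map_prod] using congrArg (Polynomial.aeval (X i : R p)) a
  refine ⟨fun i => homogeneousComponent m (H i), fun i => homogeneousComponent_isHomogeneous _ _, ?_⟩
  rw [h2, Finsupp.linearCombination_apply, Finsupp.sum_fintype _ _ (by simp), map_sum]
  refine sum_congr rfl fun i _ => ?_
  rw [smul_eq_mul, P, mul_comm, sub_mul, map_sub]
  have dH : (H i).totalDegree ≤ m := by
    by_cases z : H i = 0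
    · simp [z]
    have a := (h1 i).trans hf
    have b : (X i ^ p - X i : R p).totalDegree = p := by
      rw [sub_eq_add_neg, totalDegree_add_eq_left_of_totalDegree_lt] <;> simp [p1]
    rw [P, totalDegree_mul_of_isDomain (fun e => by simp [e] at b; omega) z, b] at a
    omega
  rw [homogeneousComponent_eq_zero _ (X i * H i) (((totalDegree_mul _ _).trans
    (add_le_add (by simp : _ ≤ 1) dH)).trans_lt (by omega)), sub_zero]
  ext s
  simp only [coeff_homogeneousComponent, X_pow_eq_monomial, coeff_monomial_mul', one_mul]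
  by_cases b : Finsupp.single i p ≤ s
  · have : s.degree = (s - Finsupp.single i p).degree + p := by
      conv_lhs => rw [← tsub_add_cancel_of_le b, map_add, Finsupp.degree_single]
    simp only [b, if_true]
    exact if_congr (by omega) rfl rfl
  · simp [b]

end Pool.Agent.H.MP_853269_co
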