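import Mathlib
import Pool.Agent.H.MP_853269_co.A

set_option autoImplicit false

namespace Pool.Agent.H.MP_853269_co

open MvPolynomial Finset Matrix

variable {p : ℕ} [Fact p.Prime]

theorem par {d e : Fin 3 → ZMod p} (h : d ≠ 0) (z : d ⨯₃ e = 0) : ∃ c : ZMod p, e = c • d := by
  by_contra n
  refine crossProduct_ne_zero_iff_linearIndependent.2 ((LinearIndependent.pair_iff' h).2 ?_) z
  exact fun a ha => n ⟨a, ha.symm⟩

theorem par2 {u v e : Fin 3 → ZMod p} (h : u ⨯₃ v ≠ 0) (a : e ⬝ᵥ u = 0) (b : e ⬝ᵥ v = 0) :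
    ∃ c : ZMod p, e = c • u ⨯₃ v :=
  par h (by rw [cross_cross_eq_smul_sub_smul, dotProduct_comm, a, dotProduct_comm, b]; simp)

theorem ex_cross {d : Fin 3 → ZMod p} (h : d ≠ 0) : ∃ u v, d = u ⨯₃ v := by
  obtain ⟨k, hk⟩ := Function.ne_iff.1 h
  fin_cases k
  · refine ⟨![-d 1 / d 0, 1, 0], ![-d 2, 0, d 0], ?_⟩
    have : d 0 ≠ 0 := hk
    ext i; fin_cases i <;> simp [cross_apply] <;> field_simp
  · refine ⟨![0, -d 2 / d 1, 1], ![d 1, -d 0, 0], ?_⟩
    have : d 1 ≠ 0 := hk
    ext i; fin_cases i <;> simp [cross_apply] <;> field_simp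
  · refine ⟨![1, 0, -d 0 / d 2], ![0, d 2, -d 1], ?_⟩
    have : d 2 ≠ 0 := hk
    ext i; fin_cases i <;> simp [cross_apply] <;> field_simp

theorem wr {A : Type} [CommRing A] (u v d P : Fin 3 → A) (Q : Fin 3 → Fin 3 → A)
    (hd : d = u ⨯₃ v) (k : Fin 3)
    (E : ∀ a, d a * D3 d P (Q k) + d k * D3 d (Q a) P = 0) :
    d k * ((∑ i, u i * P i) * (∑ i, v i * ∑ a, u a * Q a i) -
      (∑ i, u i * ∑ a, u a * Q a i) * ∑ i, v i * P i) = 0 := by
  have e0 := E 0
  have e1 := E 1
  have e2 := E 2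
  generalize d k = t at *
  generalize D3 d P (Q k) = s at *
  subst hd
  simp only [D3, cross_apply, Fin.sum_univ_three, cons_val_zero, cons_val_one, cons_val_two,
    head_cons, tail_cons] at *
  linear_combination -u 0 * e0 - u 1 * e1 - u 2 * e2

open Polynomial in
theorem dep (f g : (ZMod p)[X]) (hf : f.natDegree < p) (hg : g.natDegree < p)
    (h : wronskian f g = 0) : f = 0 ∨ ∃ r, g = Polynomial.C r * f := by
  classical
  refine or_iff_not_imp_left.2 fun f0 => ?_
  obtain ⟨a, b, ha, hb, u⟩ := extract_gcd f g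
  generalize gcd f g = e at ha hb
  subst ha hb
  have e0 : e ≠ 0 := left_ne_zero_of_mul f0
  have w : wronskian a b = 0 := by
    refine (mul_eq_zero.1 ?_).resolve_left (pow_ne_zero 2 e0)
    simp only [wronskian, derivative_mul] at h ⊢
    linear_combination h
  have c : ∀ q : (ZMod p)[X], (e * q).natDegree < p → derivative q = 0 → ∃ r, q = Polynomial.C r := by
    intro q h1 h2
    by_cases z : q = 0
    · exact ⟨0, by simp [z]⟩
    have t := congrArg natDegree (expand_contract p h2 (Fact.out : p.Prime).ne_zero)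
    rw [natDegree_expand] at t
    rw [natDegree_mul e0 z, ← t] at h1
    have : (contract p q).natDegree = 0 := by nlinarith
    exact ⟨_, eq_C_of_natDegree_eq_zero (by rw [← t, this, zero_mul])⟩
  obtain ⟨w1, w2⟩ := ((gcd_isUnit_iff _ _).1 u).wronskian_eq_zero_iff.1 w
  obtain ⟨x, rfl⟩ := c a hf w1
  obtain ⟨y, rfl⟩ := c b hg w2
  have x0 : x ≠ 0 := fun z => f0 (by simp [z])
  exact ⟨y / x, by rw [mul_left_comm, ← Polynomial.C_mul, div_mul_cancel₀ _ x0]⟩

open Polynomial in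
theorem mult {ι : Type} (s : Finset ι) (q : ι → (ZMod p)[X]) (w : ι → ℕ) (hq : ∀ j ∈ s, q j ≠ 0)
    (h1 : ∀ j, (q j).natDegree ≤ 1) (r : ZMod p) :
    (∏ j ∈ s, q j ^ w j).roots.count r ≤ ∑ j ∈ s with eval r (q j) = 0, w j := by
  rw [roots_prod _ _ (prod_ne_zero_iff.2 fun j hj => pow_ne_zero _ (hq j hj)), Multiset.count_bind,
    sum_filter]
  refine sum_le_sum (s := s) fun j hj => ?_
  rw [roots_pow, Multiset.count_nsmul]
  split_ifs with z
  · exact (Nat.mul_le_mul_left _ ((Multiset.count_le_card _ _).trans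
      ((card_roots' _).trans (h1 j)))).trans_eq (mul_one _)
  · rw [Multiset.count_eq_zero.2 fun m => z (isRoot_of_mem_roots m)]; simp

noncomputable def ta (u v : Fin 3 → ZMod p) : R p →ₐ[ZMod p] Polynomial (ZMod p) :=
  aeval fun i => Polynomial.C (u i) * Polynomial.X + Polynomial.C (v i)

theorem ta_C (u v : Fin 3 → ZMod p) (c : ZMod p) : ta u v (C c) = Polynomial.C c := by
  simp [ta]

theorem ta_L (u v e : Fin 3 → ZMod p) :
    ta u v (L e) = Polynomial.C (e ⬝ᵥ u) * Polynomial.X + Polynomial.C (e ⬝ᵥ v) := by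
  simp [ta, L, dotProduct, Fin.sum_univ_three]
  ring

theorem ta_pow (u v : Fin 3 → ZMod p) (i : Fin 3) :
    ta u v (X i ^ p) = Polynomial.C (u i) * Polynomial.X ^ p + Polynomial.C (v i) := by
  rw [map_pow, ta, aeval_X, add_pow_char, mul_pow, ← map_pow, ← map_pow, ZMod.pow_card,
    ZMod.pow_card]

theorem ta_der (u v : Fin 3 → ZMod p) (q : R p) : Polynomial.derivative (ta u v q) =
    ∑ a, Polynomial.C (u a) * ta u v (pderiv a q) := by
  induction q using MvPolynomial.induction_on with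
  | C a => simp
  | add f g hf hg => simp [hf, hg, mul_add, sum_add_distrib]
  | mul_X f i hf =>
    simp only [map_mul, Polynomial.derivative_mul, hf, Derivation.leibniz, smul_eq_mul, map_add,
      mul_add, sum_add_distrib, sum_mul, pderiv_X, Pi.single_apply, mul_ite, apply_ite (ta u v)]
    have : Polynomial.derivative (ta u v (X i)) = Polynomial.C (u i) := by simp [ta]
    rw [this]
    simp only [map_one, map_zero, mul_one, mul_zero, sum_ite_eq, mem_univ, if_true]
    rw [add_comm]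
    exact congrArg₂ _ (mul_comm _ _) (sum_congr rfl fun _ _ => by ring)

theorem ta_deg (u v : Fin 3 → ZMod p) (q : R p) : (ta u v q).natDegree ≤ q.totalDegree :=
  (aeval_natDegree_le q le_rfl _ fun _ => Polynomial.natDegree_linear_le).trans_eq (mul_one _)

theorem eval_L (d x : Fin 3 → ZMod p) : eval x (L d) = d ⬝ᵥ x := by
  simp [L, dotProduct]

variable {ι : Type} [Fintype ι]

theorem hh (d : ι → Fin 3 → ZMod p) (μ : ι → ℕ) (m : ℕ) (hμ : ∑ i, μ i + 1 = p)
    (hm : Fintype.card ι = m + 1) (mp : m < p) (c : ZMod p)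
    (hF : ∀ x, c * ∏ i, (d i ⬝ᵥ x) ^ (μ i + 1) + ∏ i, d i ⬝ᵥ x = 0) :
    ∃ h : Fin 3 → R p, (∀ i, (h i).IsHomogeneous m) ∧
      ∑ i, X i ^ p * h i = C c * ∏ i, L (d i) ^ (μ i + 1) ∧ ∑ i, X i * h i = -∏ i, L (d i) := by
  have p1 := (Fact.out : p.Prime).one_lt
  have a : (C c * ∏ i, L (d i) ^ (μ i + 1)).IsHomogeneous (p + m) := by
    have := (IsHomogeneous.prod univ _ _ fun i _ => (L_hom (d i)).pow (μ i + 1)).C_mul c
    rwa [show ∑ i, 1 * (μ i + 1) = p + m by simp [sum_add_distrib, hm]; omega] at this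
  have b : (∏ i, L (d i)).IsHomogeneous (m + 1) := by
    simpa [hm] using IsHomogeneous.prod univ _ _ fun i _ => L_hom (d i)
  obtain ⟨h, h1, h2⟩ := top (C c * ∏ i, L (d i) ^ (μ i + 1) + ∏ i, L (d i)) m _ rfl
    ((totalDegree_add _ _).trans (max_le a.totalDegree_le (b.totalDegree_le.trans (by omega))))
    (by simpa [eval_L] using hF)
  rw [map_add, homogeneousComponent_eq_self a, homogeneousComponent_of_mem b, if_neg (by omega),
    add_zero] at h2
  refine ⟨h, h1, h2.symm, IsHomogeneous.funext_of_le_card (n := m + 1)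
    (IsHomogeneous.sum _ _ _ fun i _ => add_comm 1 m ▸ (isHomogeneous_X _ i).mul (h1 i)) b.neg
    (fun x => ?_) (by simpa using mp)⟩
  have := congrArg (eval x) h2
  simp only [map_mul, map_sum, map_prod, map_pow, eval_L, eval_X, eval_C, ZMod.pow_card,
    map_neg] at this ⊢
  linear_combination hF x - this

theorem J0 (d : ι → Fin 3 → ZMod p) (μ : ι → ℕ) (m : ℕ) (hμ : ∑ i, μ i + 1 = p)
    (hm : Fintype.card ι = m + 1) (mp : m < p) (c : ZMod p) (d0 : ∀ i, d i ≠ 0)
    (dp : ∀ i j, i ≠ j → ∀ c : ZMod p, d j ≠ c • d i) (h : Fin 3 → R p)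
    (h1 : ∀ i, (h i).IsHomogeneous m)
    (h2 : ∑ i, X i ^ p * h i = C c * ∏ i, L (d i) ^ (μ i + 1)) (a b : Fin 3) :
    D3 h (fun i => pderiv a (h i)) (fun i => pderiv b (h i)) = 0 := by
  have p1 := (Fact.out : p.Prime).one_lt
  by_contra J
  have H : (D3 h (fun i => pderiv a (h i)) (fun i => pderiv b (h i))).IsHomogeneous
      (m + (m - 1 + (m - 1))) := by
    have := fun i j k => (h1 i).mul ((((h1 j).pderiv (i := a)).mul ((h1 k).pderiv (i := b))).sub
      (((h1 k).pderiv (i := a)).mul ((h1 j).pderiv (i := b))))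
    exact ((this 0 1 2).sub (this 1 0 2)).add (this 2 0 1)
  have D : ∏ i, L (d i) ^ (2 * μ i + 1) ∣
      D3 h (fun i => pderiv a (h i)) (fun i => pderiv b (h i)) := by
    refine Fintype.prod_dvd_of_isRelPrime (fun i j ij => (L_rel (d0 i) (dp i j ij)).pow) fun i => ?_
    obtain ⟨l, -, hl⟩ := iter (d0 i) h fun i => (h1 i).totalDegree_le.trans_lt mp
    choose ψ hψ using hl (μ i + 1) (by
      have := single_le_sum (f := μ) (fun _ _ => Nat.zero_le _) (mem_univ i); omega)
      (h2 ▸ (dvd_prod_of_mem (fun i => L (d i) ^ (μ i + 1)) (mem_univ i)).mul_left _)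
    obtain ⟨T, hT⟩ := jac (d i) h ψ l (μ i) a b hψ
    exact ⟨_, hT⟩
  have := (totalDegree_le_of_dvd_of_isDomain D J).trans H.totalDegree_le
  rw [(IsHomogeneous.prod univ _ _ fun i _ => (L_hom (d i)).pow (2 * μ i + 1)).totalDegree
    (prod_ne_zero_iff.2 fun i _ => pow_ne_zero _ (L_ne (d0 i)))] at this
  simp only [one_mul, sum_add_distrib, ← mul_sum, sum_const, card_univ, hm, smul_eq_mul] at this
  omega

end Pool.Agent.H.MP_853269_co
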