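import Mathlib
import Pool.Agent.H.MP_853269_co.B

set_option autoImplicit false

namespace Pool.Agent.H.MP_853269_co

open MvPolynomial Finset Matrix

variable {p : ℕ} [Fact p.Prime] {ι : Type} [Fintype ι] [DecidableEq ι]

theorem core (d : ι → Fin 3 → ZMod p) (μ : ι → ℕ) (m : ℕ) (hμ : ∑ i, μ i + 1 = p)
    (hm : Fintype.card ι = m + 1) (mp : m < p) (c : ZMod p) (c0 : c ≠ 0) (d0 : ∀ i, d i ≠ 0)
    (dp : ∀ i j, i ≠ j → ∀ c : ZMod p, d j ≠ c • d i)
    (hF : ∀ x, c * ∏ i, (d i ⬝ᵥ x) ^ (μ i + 1) + ∏ i, d i ⬝ᵥ x = 0) (i : ι) (h1 : 1 ≤ μ i)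
    (h2 : μ i + 1 < p) : ∃ x ≠ 0, d i ⬝ᵥ x = 0 ∧
      p ≤ ∑ j ∈ univ.erase i with d j ⬝ᵥ x = 0, (μ j + 1) := by
  obtain ⟨h, H, HB, HA⟩ := hh d μ m hμ hm mp c hF
  have J := J0 d μ m hμ hm mp c d0 dp h H HB
  obtain ⟨u, v, uv⟩ := ex_cross (d0 i)
  have du : d i ⬝ᵥ u = 0 := by rw [uv, dotProduct_comm, dot_self_cross]
  have dv : d i ⬝ᵥ v = 0 := by rw [uv, dotProduct_comm, dot_cross_self]
  have t0 : ta u v (L (d i)) = 0 := by simp [ta_L, du, dv]
  have t1 : ∀ j ∈ univ.erase i, ta u v (L (d j)) ≠ 0 := fun j hj z => by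
    rw [ta_L] at z
    have a := congrArg (Polynomial.coeff · 1) z
    have b := congrArg (Polynomial.coeff · 0) z
    obtain ⟨e, he⟩ := par2 (uv ▸ d0 i) (e := d j) (by simpa using a) (by simpa using b)
    exact dp i j (ne_of_mem_erase hj).symm e (uv ▸ he)
  have l0 := L_ne (d0 i)
  obtain ⟨l, ⟨k, c', hl'⟩, hl⟩ := iter (d0 i) h fun i => (H i).totalDegree_le.trans_lt mp
  choose ψ hψ using hl (μ i + 1) h2.le
    (HB ▸ (dvd_prod_of_mem (fun i => L (d i) ^ (μ i + 1)) (mem_univ i)).mul_left _)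
  have hd : ∀ j, ψ j ≠ 0 → (ψ j).totalDegree + (μ i + 1) ≤ m := fun j z => by
    have := ((H j).sub (hl' ▸ ((H k).C_mul c').C_mul (d i j))).totalDegree_le
    rw [hψ, totalDegree_mul_of_isDomain (pow_ne_zero _ l0) z,
      ((L_hom (d i)).pow _).totalDegree (pow_ne_zero _ l0)] at this
    omega
  have hd' : ∀ w : Fin 3 → ZMod p,
      (∑ j, Polynomial.C (w j) * ta u v (ψ j)).natDegree ≤ m - (μ i + 1) := fun w => by
    refine Polynomial.natDegree_sum_le_of_forall_le _ _ fun j _ =>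
      (Polynomial.natDegree_C_mul_le _ _).trans ((ta_deg _ _ _).trans ?_)
    by_cases z : ψ j = 0
    · simp [z]
    · have := hd j z; omega
  have eA : ta u v l ≠ 0 := by
    obtain ⟨n, hn⟩ : ∃ n, μ i = n + 1 := ⟨μ i - 1, by omega⟩
    have : l + L (d i) * (L (d i) ^ n * ∑ j, X j * ψ j) = -∏ j ∈ univ.erase i, L (d j) := by
      refine mul_left_cancel₀ l0 ?_
      rw [← mul_prod_erase _ _ (mem_univ i)] at HA
      have e : L (d i) = ∑ j, C (d i j) * X j := rfl
      simp only [Fin.sum_univ_three, hn] at HA hψ e ⊢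
      linear_combination HA - X 0 * hψ 0 - X 1 * hψ 1 - X 2 * hψ 2 + l * e
    have := congrArg (ta u v) this
    rw [map_add, map_mul, t0, zero_mul, add_zero, map_neg, map_prod] at this
    exact this ▸ neg_ne_zero.2 (prod_ne_zero_iff.2 t1)
  set f := ∑ j, Polynomial.C (u j) * ta u v (ψ j) with hf
  set g := ∑ j, Polynomial.C (v j) * ta u v (ψ j) with hg
  have eB : Polynomial.X ^ p * f + g =
      Polynomial.C c * ∏ j ∈ univ.erase i, ta u v (L (d j)) ^ (μ j + 1) := by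
    obtain ⟨n, hn⟩ : ∃ n, p = μ i + 1 + (n + 1) := ⟨p - (μ i + 2), by omega⟩
    have : L (d i) * (L (d i) ^ n * l) + ∑ j, X j ^ p * ψ j =
        C c * ∏ j ∈ univ.erase i, L (d j) ^ (μ j + 1) := by
      refine mul_left_cancel₀ (pow_ne_zero (μ i + 1) l0) ?_
      rw [← mul_prod_erase _ _ (mem_univ i)] at HB
      have e := L_pow (d i)
      have e' : L (d i) ^ p = L (d i) ^ (μ i + 1 + (n + 1)) := by rw [← hn]
      simp only [Fin.sum_univ_three] at HB e ⊢
      linear_combination HB - X 0 ^ p * hψ 0 - X 1 ^ p * hψ 1 - X 2 ^ p * hψ 2 + l * e - l * e'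
    have := congrArg (ta u v) this
    rw [map_add, map_mul, t0, zero_mul, zero_add, map_mul, ta_C, map_prod, map_sum] at this
    simp only [map_mul, ta_pow] at this
    simp only [map_pow, Fin.sum_univ_three] at this hf hg
    rw [← this, hf, hg]
    ring
  have W0 := mul_ne_zero (Polynomial.C_ne_zero.2 c0)
    (prod_ne_zero_iff.2 fun j hj => pow_ne_zero (μ j + 1) (t1 j hj))
  have eC : Polynomial.wronskian f g = 0 := by
    obtain ⟨k, hk⟩ := Function.ne_iff.1 (d0 i)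
    have := wr (fun j => Polynomial.C (u j)) (fun j => Polynomial.C (v j))
      (fun j => Polynomial.C (d i j)) (fun j => ta u v (ψ j))
      (fun a j => ta u v (pderiv a (ψ j))) (by
        rw [uv]; ext1 j; fin_cases j <;> simp [cross_apply]) k fun a => by
        obtain ⟨T, hT⟩ := jac (d i) h ψ l (μ i) a k hψ
        rw [J] at hT
        have := congrArg (ta u v) ((mul_eq_zero.1 hT.symm).resolve_left (pow_ne_zero _ l0))
        rw [map_add, map_mul _ (L _), t0, zero_mul, add_zero, map_mul, map_mul, map_zero] at this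
        have := (mul_eq_zero.1 this).resolve_left (mul_ne_zero eA (by
          rw [← Nat.cast_succ, map_natCast, ← Polynomial.C_eq_natCast, Polynomial.C_ne_zero,
            Ne, ZMod.natCast_eq_zero_iff]
          exact Nat.not_dvd_of_pos_of_lt (Nat.succ_pos _) h2))
        simpa only [D3, map_add, map_sub, map_mul, ta_C] using this
    refine (mul_eq_zero.1 ?_).resolve_left (Polynomial.C_ne_zero.2 hk)
    simpa only [Polynomial.wronskian, hf, hg, map_sum, Polynomial.derivative_C_mul, ta_der]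
      using this
  have uv0 : u ⨯₃ v ≠ 0 := uv ▸ d0 i
  rcases dep f g ((hd' u).trans_lt (by omega)) ((hd' v).trans_lt (by omega)) eC with z | ⟨r, z⟩
  · refine ⟨u, fun e => uv0 (by simp [e]), du, ?_⟩
    rw [z, mul_zero, zero_add] at eB
    have a : μ i + 1 ≤ m := by
      by_contra n
      refine W0 (eB ▸ ?_)
      rw [hg]
      refine sum_eq_zero fun j _ => ?_
      rw [not_not.1 fun y => n (le_add_self.trans (hd j y)), map_zero, mul_zero]
    have b := hd' v
    rw [← hg, eB, Polynomial.natDegree_C_mul c0,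
      Polynomial.natDegree_prod _ _ fun j hj => pow_ne_zero _ (t1 j hj)] at b
    have e : ∑ j ∈ univ.erase i, (μ j + 1) ≤
        ∑ j ∈ univ.erase i, (ta u v (L (d j)) ^ (μ j + 1)).natDegree +
        ∑ j ∈ univ.erase i with d j ⬝ᵥ u = 0, (μ j + 1) := by
      rw [sum_filter, ← sum_add_distrib]
      refine sum_le_sum fun j _ => ?_
      split_ifs with y
      · omega
      · rw [Polynomial.natDegree_pow, ta_L, Polynomial.natDegree_linear y]; omega
    have := add_sum_erase univ (fun j => μ j + 1) (mem_univ i)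
    rw [sum_add_distrib (s := univ), sum_const, card_univ, hm, smul_eq_mul] at this
    omega
  · refine ⟨(-r) • u + v, fun e => uv0 ?_, by simp [du, dv], ?_⟩
    · rw [eq_neg_of_add_eq_zero_right e]; simp
    have := mult _ _ (fun j => μ j + 1) t1
      (fun j => ta_L u v (d j) ▸ Polynomial.natDegree_linear_le) (-r)
    rw [← Polynomial.roots_C_mul _ c0, Polynomial.count_roots] at this
    refine (((Polynomial.le_rootMultiplicity_iff W0).2 ⟨f, ?_⟩).trans this).trans_eq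
      (sum_congr (filter_congr fun j _ => by simp [ta_L, mul_comm r]) fun _ _ => rfl)
    rw [← eB, z, sub_pow_char, ← map_pow, ZMod.pow_card, map_neg]
    ring

theorem fin (d : ι → Fin 3 → ZMod p) (μ : ι → ℕ) (hμ : ∑ i, μ i + 1 = p)
    (hm : Fintype.card ι ≤ p) (c : ZMod p) (c0 : c ≠ 0) (d0 : ∀ i, d i ≠ 0)
    (dp : ∀ i j, i ≠ j → ∀ c : ZMod p, d j ≠ c • d i)
    (hF : ∀ x, c * ∏ i, (d i ⬝ᵥ x) ^ (μ i + 1) + ∏ i, d i ⬝ᵥ x = 0)
    (np : ∀ x ≠ 0, ∃ i, 1 ≤ μ i ∧ d i ⬝ᵥ x ≠ 0) : False := by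
  obtain ⟨i0, h0, -⟩ := np 1 one_ne_zero
  obtain ⟨i, -, hi⟩ := exists_max_image univ μ ⟨i0, mem_univ _⟩
  obtain ⟨m, hc⟩ : ∃ m, Fintype.card ι = m + 1 :=
    ⟨_, (Nat.succ_pred_eq_of_pos (Fintype.card_pos_iff.2 ⟨i⟩)).symm⟩
  have lt : ∀ j, μ j + 1 < p := fun j => by
    obtain ⟨u, v, uv⟩ := ex_cross (d0 j)
    obtain ⟨k, h1, h2⟩ := np u fun e => d0 j (by simp [uv, e])
    have : k ≠ j := fun e => h2 (by rw [e, uv, dotProduct_comm, dot_self_cross])
    have := sum_le_sum_of_subset (f := μ) (subset_univ {k, j})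
    rw [sum_pair ‹_›] at this
    omega
  have C := core d μ m hμ hc (by omega) c c0 d0 dp hF
  obtain ⟨x, x0, x1, x2⟩ := C i (h0.trans (hi _ (mem_univ _))) (lt i)
  obtain ⟨j, j1, j2⟩ := np x x0
  obtain ⟨y, y0, y1, y2⟩ := C j j1 (lt j)
  have xy : y ⨯₃ x ≠ 0 := fun e => by
    obtain ⟨a, ha⟩ := par y0 e
    exact j2 (by simp [ha, y1])
  have e : ∀ k z, d k ⬝ᵥ z = 0 → ∑ j with d j ⬝ᵥ z = 0, (μ j + 1) =
      μ k + 1 + ∑ j ∈ univ.erase k with d j ⬝ᵥ z = 0, (μ j + 1) := fun k z h => by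
    rw [filter_erase, add_sum_erase _ (fun j => μ j + 1) (by simpa using h)]
  have a := sum_union_inter (s₁ := {j | d j ⬝ᵥ x = 0}) (s₂ := {j | d j ⬝ᵥ y = 0})
    (f := fun j => μ j + 1)
  have b := sum_le_sum_of_subset (f := fun j => μ j + 1)
    (subset_univ (({j | d j ⬝ᵥ x = 0} : Finset ι) ∪ ({j | d j ⬝ᵥ y = 0} : Finset ι)))
  have t : (({j | d j ⬝ᵥ x = 0} : Finset ι) ∩ ({j | d j ⬝ᵥ y = 0} : Finset ι)).card ≤ 1 := by
    refine card_le_one.2 fun k hk l hl => by_contra fun n => ?_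
    simp only [mem_inter, mem_filter, mem_univ, true_and] at hk hl
    obtain ⟨a, ha⟩ := par2 xy hk.2 hk.1
    obtain ⟨b, hb⟩ := par2 xy hl.2 hl.1
    have : a ≠ 0 := fun e => d0 k (by simp [ha, e])
    exact dp k l n (b / a) (by rw [ha, hb, smul_smul, div_mul_cancel₀ _ this])
  have s := (sum_le_card_nsmul _ (fun j => μ j + 1) (μ i + 1) fun k _ =>
    Nat.succ_le_succ (hi k (mem_univ _))).trans (Nat.mul_le_mul_right _ t)
  rw [sum_add_distrib (s := univ), sum_const, card_univ, hc, smul_eq_mul] at b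
  rw [e i x x1, e j y y1] at a
  omega

end Pool.Agent.H.MP_853269_co
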